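import Mathlib
import Pool.Agent.TH841.PT.Fin2

/-!
# Simultaneous twists of several curves at prime arguments

`E_i : y² = x³ + A_i x + B_i`, `i = 0, ..., m`, are elliptic curves with integer roots, `D_i` arbitrary
nonzero polynomials with integer coefficients and `G₀, ..., G_{r-1}` pairwise different irreducible
polynomials. For all `s` the sum of the products
`∏ i, (2 ^ rank * #Ш[2 ^ k_i] ^ (1 / k_i)) ^ s` of the weights of the twists of the `E_i` by `D_i(t)`, over
the `t` with `N < t ≤ N + M` for which all the `|G_j(t)|` are primes, is at most `C M / (log M) ^ r`,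
uniformly for `|N| ≤ M ^ L` and all `k_i ≥ 1`.
-/

set_option autoImplicit false

namespace Pool.Agent.Results.MP_e23604_nt.JointPrimeArguments

open Finset Polynomial

open Pool.Agent.TH841.SH.D (Sha ShaTor HasDiv rk)

open Pool.Agent.W307.SE (SelR)

/-- the quadratic twist `y² = x³ + d² A x + d³ B` of `y² = x³ + A x + B` over `ℚ` by `d` -/
def Tw (A B d : ℤ) : WeierstrassCurve ℚ := ⟨0, 0, 0, ((d ^ 2 * A : ℤ) : ℚ), ((d ^ 3 * B : ℤ) : ℚ)⟩

/-- the weight `2 ^ rank * #Ш[2 ^ k] ^ (1 / k)` -/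
noncomputable def weight (k : ℕ) (W : WeierstrassCurve ℚ) : ℝ :=
  (2 : ℝ) ^ rk W * (Nat.card (ShaTor W (2 ^ k)) : ℝ) ^ ((1 : ℝ) / k)

open Classical in
/-- the integers `t` with `N < t ≤ N + M` such that no `D_i(t)` is zero and all the `|G_j(t)|` are
primes -/
noncomputable def Par {m r : ℕ} (D : Fin (m + 1) → ℤ[X]) (G : Fin r → ℤ[X]) (N : ℤ) (M : ℕ) :
    Finset ℤ :=
  (Ioc N (N + M)).filter (fun t => (∀ i, (D i).eval t ≠ 0) ∧ ∀ j, ((G j).eval t).natAbs.Prime)

open Classical in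
/-- **Theorem.** For `i = 0, ..., m` let `y² = (x - e₁) (x - e₂) (x - e₃) = x³ + A_i x + B_i` be elliptic
curves with integers `e₁`, `e₂`, `e₃` (depending on `i`), and `D_i ≠ 0` polynomials with integer
coefficients. Let `G₀, ..., G_{r-1}` be pairwise non-associated irreducible polynomials of positive
degree with integer coefficients. For all `s` and `L` there is `C` such that for all integers `M ≥ 2`
and `|N| ≤ M ^ L` and the set `P` of the `t` with `N < t ≤ N + M` for which all the `D_i(t)` are nonzero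
and all the `|G_j(t)|` are primes: the groups `Ш(W_{i,t})[2 ^ k]` of the twists `W_{i,t}` of the curves by
`D_i(t)` are finite for `t` in `P`; the sum over `t` in `P` of
`∏ i, (2 ^ rank W_{i,t} * #Ш(W_{i,t})[2 ^ k_i] ^ (1 / k_i)) ^ s` is at most `C M / (log M) ^ r` for all
`k_i ≥ 1`; and for all `n_i` and `q_i` at most `C M / (log M) ^ r / 2 ^ (s ∑ (n_i + q_i))` of the `t` in `P`
have for every `i` a twist `W_{i,t}` of rank at least `n_i` whose Tate-Shafarevich group has a subgroup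
`(ℚ₂ / ℤ₂) ^ q_i`. -/
theorem result (m : ℕ) (A B e₁ e₂ e₃ : Fin (m + 1) → ℤ)
    (hE : ∀ i, 4 * A i ^ 3 + 27 * B i ^ 2 ≠ 0)
    (he : ∀ i, ∀ x : ℤ, x ^ 3 + A i * x + B i = (x - e₁ i) * (x - e₂ i) * (x - e₃ i))
    (D : Fin (m + 1) → ℤ[X]) (hD : ∀ i, D i ≠ 0)
    (r : ℕ) (G : Fin r → ℤ[X]) (hG : ∀ j, Irreducible (G j) ∧ 0 < (G j).natDegree)
    (hG' : ∀ i j, i ≠ j → ¬ Associated (G i) (G j)) (s L : ℕ) :
    ∃ C : ℝ, ∀ (N : ℤ) (M : ℕ), 2 ≤ M → |N| ≤ (M : ℤ) ^ L →
      (∀ t ∈ Par D G N M, ∀ i, ∀ k : ℕ,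
        Finite (ShaTor (Tw (A i) (B i) ((D i).eval t)) (2 ^ k))) ∧
      (∀ k : Fin (m + 1) → ℕ, (∀ i, 1 ≤ k i) →
        ∑ t ∈ Par D G N M, ∏ i, weight (k i) (Tw (A i) (B i) ((D i).eval t)) ^ s ≤
          C * (M / (Real.log M) ^ r)) ∧
      ∀ n q : Fin (m + 1) → ℕ, (((Par D G N M).filter (fun t => ∀ i,
        n i ≤ rk (Tw (A i) (B i) ((D i).eval t)) ∧
          HasDiv (Tw (A i) (B i) ((D i).eval t)) (q i))).card : ℝ) ≤
        C * (M / (Real.log M) ^ r) / 2 ^ (s * ∑ i, (n i + q i)) := by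
  have hirr : Pool.Agent.TH841.PT.Irr G := ⟨fun i => (hG i).1, fun i => (hG i).2, hG'⟩
  choose C _ hC using fun i => Pool.Agent.TH841.PT.sel_prime Pool.Agent.TH841.PT.avh hirr (hE i) (he i)
    (D i) (hD i) (Fintype.card (Fin (m + 1)) * s) L
  refine ⟨∑ i, C i, fun N M hM hN => ?_⟩
  have hbd : ∀ t ∈ Par D G N M, ∀ i, Pool.Agent.TH841.SH.Bd (Tw (A i) (B i) ((D i).eval t))
      ((SelR (((D i).eval t) ^ 2 * A i) (((D i).eval t) ^ 3 * B i)).ncard : ℝ) := by
    intro t ht i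
    have hd := (mem_filter.1 ht).2.1 i
    exact Pool.Agent.TH841.SH.bd_selR (Pool.Agent.TH639.SL.disc_tw hd (hE i))
      (Pool.Agent.TH639.SL.roots_tw (he i) _) (Pool.Agent.TH639.SL.sel_tw (hE i) (he i) hd).1
  have hsum : ∑ t ∈ Par D G N M, (∏ i,
      ((SelR (((D i).eval t) ^ 2 * A i) (((D i).eval t) ^ 3 * B i)).ncard : ℝ)) ^ s ≤
        (∑ i, C i) * (M / (Real.log M) ^ r) := by
    rw [sum_mul]
    refine le_trans ?_ (sum_le_sum fun i _ => hC i N M hM hN)
    refine (sum_le_sum fun t _ => Pool.Agent.TH841.NF.prod_pow_le _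
      (fun i => Nat.cast_nonneg _) s).trans ?_
    rw [sum_comm]
    refine sum_le_sum fun i _ => ?_
    refine sum_le_sum_of_subset_of_nonneg ?_ (fun t _ _ => by positivity)
    intro t ht
    unfold Par at ht
    rw [mem_filter] at ht ⊢
    exact ⟨ht.1, ht.2.1 i, ht.2.2⟩
  refine ⟨fun t ht i k => (hbd t ht i).fin k, fun k hk => ?_, fun n q => ?_⟩
  · refine le_trans (sum_le_sum fun t ht => ?_) hsum
    rw [prod_pow]
    refine pow_le_pow_left₀ (prod_nonneg fun i _ => ?_) (prod_le_prod (fun i _ => ?_) fun i _ => ?_) s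
    · exact Pool.Agent.TH841.SH.wt_nonneg _ _
    · exact Pool.Agent.TH841.SH.wt_nonneg _ _
    · exact (hbd t ht i).wt_le (hk i)
  · rw [le_div_iff₀ (by positivity)]
    refine le_trans ?_ hsum
    refine le_trans ?_ (sum_le_sum_of_subset_of_nonneg (filter_subset (fun t => ∀ i,
        n i ≤ rk (Tw (A i) (B i) ((D i).eval t)) ∧
          HasDiv (Tw (A i) (B i) ((D i).eval t)) (q i)) (Par D G N M))
      (fun t _ _ => by positivity))
    rw [← nsmul_eq_mul]
    refine card_nsmul_le_sum _ _ _ fun t ht => ?_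
    obtain ⟨ht1, ht2⟩ := mem_filter.1 ht
    rw [mul_comm s, pow_mul]
    refine pow_le_pow_left₀ (by positivity) ?_ s
    rw [← prod_pow_eq_pow_sum]
    exact prod_le_prod (fun i _ => by positivity) fun i _ =>
      (hbd t ht1 i).div_le (ht2 i).1 (ht2 i).2

end Pool.Agent.Results.MP_e23604_nt.JointPrimeArguments
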