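import Pool.Agent.V11288.NO.All

/-!
# Almost all curves with full rational 2-torsion: the Tate-Shafarevich groups of the isogenous curves

For almost all pairs of integers `A, B`, `|A|, |B| ≤ X`, the curve `E : y² = x (x - A) (x - B)` has bounded
rank and Tate-Shafarevich group of bounded 2-rank, and for its three 2-isogenous curves `E / ⟨T⟩`, `T` a
point of order two, the 2-rank of the Tate-Shafarevich group is `(3 / 2 + o(1)) log log X`; the
2-primary part of this group is, up to a bounded number of cyclic groups and copies of `ℚ₂ / ℤ₂`, the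
elementary abelian 2-group of this rank.
-/

set_option autoImplicit false

namespace Pool.Agent.Results.MP_e23604_nt.NormalOrderIsogenous

open WeierstrassCurve Pool.Agent.TH841.SH.D

/-- the curve `y² = x (x - A) (x - B)` -/
def E (A B : ℤ) : WeierstrassCurve ℚ := ⟨0, -((A : ℚ) + B), 0, (A : ℚ) * B, 0⟩

/-- the quotient of `y² = x (x - a) (x - b)` by its subgroup generated by `(0, 0)`: the curve
`y² = x³ + 2 (a + b) x² + (a - b)² x` -/
def Q (a b : ℤ) : WeierstrassCurve ℚ := ⟨0, 2 * ((a : ℚ) + b), 0, ((a : ℚ) - b) ^ 2, 0⟩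

/-- the quotients of `E A B` by the subgroups generated by `(0, 0)`, `(A, 0)`, `(B, 0)` -/
def E' (i : Fin 3) (A B : ℤ) : WeierstrassCurve ℚ := ![Q A B, Q (-A) (B - A), Q (-B) (A - B)] i

/-- The pair `(A, B)` is good: `E A B` is an elliptic curve of rank at most `R` and the order of
`Ш(E A B)[2 ^ j]` is at most `2 ^ (R j)` for all `j`; the three 2-isogenous curves `E'` have rank at
most `R`, the order of `Ш(E')[2]` is `2 ^ k` with `|k - (3 / 2) log log X| ≤ δ log log X`, and the order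
of `Ш(E')[2 ^ j]` is at most `2 ^ (k + R j)` for all `j`. -/
def Good (R : ℕ) (δ : ℝ) (X : ℕ) (A B : ℤ) : Prop :=
  A ≠ 0 ∧ B ≠ 0 ∧ A ≠ B ∧ rk (E A B) ≤ R ∧
    (∀ j : ℕ, Finite (ShaTor (E A B) (2 ^ j)) ∧ Nat.card (ShaTor (E A B) (2 ^ j)) ≤ 2 ^ (R * j)) ∧
    ∀ i : Fin 3, rk (E' i A B) ≤ R ∧
      ∃ k : ℕ, |(k : ℝ) - 3 / 2 * Real.log (Real.log X)| ≤ δ * Real.log (Real.log X) ∧
        Nat.card (ShaTor (E' i A B) 2) = 2 ^ k ∧
        ∀ j : ℕ, Finite (ShaTor (E' i A B) (2 ^ j)) ∧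
          Nat.card (ShaTor (E' i A B) (2 ^ j)) ≤ 2 ^ (k + R * j)

lemma E'_eq (i : Fin 3) (A B : ℤ) : E' i A B =
    Pool.Agent.TH841.LS.WI (Pool.Agent.Y676.IS.tri i A B).1 (Pool.Agent.Y676.IS.tri i A B).2 := by
  fin_cases i <;> rfl

open Classical in
/-- **Main theorem.** For all `δ, ε > 0` there is `R` such that for all sufficiently large `X` all but at
most `ε X²` of the pairs of integers `A, B` with `|A|, |B| ≤ X` are good: the 2-ranks of the
Tate-Shafarevich groups of the three curves 2-isogenous to `y² = x (x - A) (x - B)` are between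
`(3 / 2 - δ) log log X` and `(3 / 2 + δ) log log X`, while the rank of the curve and the 2-rank of its
Tate-Shafarevich group are at most `R`. -/
theorem result (δ ε : ℝ) (hδ : 0 < δ) (hε : 0 < ε) : ∃ R X₀ : ℕ, ∀ X : ℕ, X₀ ≤ X →
    (((Finset.Icc (-(X : ℤ)) X ×ˢ Finset.Icc (-(X : ℤ)) X).filter (fun p : ℤ × ℤ =>
      ¬ Good R δ X p.1 p.2)).card : ℝ) ≤ ε * (X : ℝ) ^ 2 := by
  obtain ⟨R, X₀, h⟩ := Pool.Agent.V11288.NO.all δ ε hδ hε
  refine ⟨R, X₀, fun X hX => (Nat.cast_le.2 (Finset.card_le_card fun p hp => ?_)).trans (h X hX)⟩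
  rw [Finset.mem_filter] at hp ⊢
  refine ⟨hp.1, fun hg => hp.2 ?_⟩
  obtain ⟨h1, h2, h3, h4, h5, h6⟩ := hg
  refine ⟨h1, h2, h3, h4, h5, fun i => ?_⟩
  rw [E'_eq]
  exact h6 i

end Pool.Agent.Results.MP_e23604_nt.NormalOrderIsogenous
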