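import Pool.Agent.V11288.NO.Pen

/-!
# Tate-Shafarevich groups in one-parameter families with full 2-torsion, and of the isogenous curves

`E_t : y² = x (x - D(t) u₀(t)) (x - D(t) u₁(t))`, where `u₀`, `u₁` and `u₂ = u₀ - u₁` are polynomials with
integer coefficients, `u_k` being a constant times a product of `n_k` irreducible polynomials, and `D` a
constant times a product of irreducible polynomials, all these irreducible polynomials being pairwise
different. Let `s_k` be the number of the irreducible factors of `u_k` at which the elliptic curve over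
`ℚ(t)` has split multiplicative reduction, and assume that `2 n_k + s_k ≤ n₀ + n₁ + n₂` for `k = 0, 1, 2`.
Then for almost all `t` in the interval `(N, N + M]`, uniformly for `|N| ≤ M ^ L`, the rank of `E_t` and
the 2-rank of `Ш(E_t)` are bounded and the 2-rank of the Tate-Shafarevich group of the isogenous curve
`E_t / ⟨(0, 0)⟩` is `(κ + o(1)) log log M` with an explicit constant `κ > 0`.
-/

set_option autoImplicit false

namespace Pool.Agent.Results.MP_e23604_nt.NormalOrderPencils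

open Finset Polynomial

open Pool.Agent.TH841.SH.D (Sha ShaTor rk)

/-- the curve `y² = x (x - A) (x - B)` -/
def E (A B : ℤ) : WeierstrassCurve ℚ := ⟨0, -((A : ℚ) + B), 0, (A : ℚ) * B, 0⟩

/-- the quotient of `y² = x (x - a) (x - b)` by its subgroup generated by `(0, 0)`: the curve
`y² = x³ + 2 (a + b) x² + (a - b)² x` -/
def Q (a b : ℤ) : WeierstrassCurve ℚ := ⟨0, 2 * ((a : ℚ) + b), 0, ((a : ℚ) - b) ^ 2, 0⟩

/-- `u_k = a_k ∏ f_{k,i}` -/
noncomputable def u {n : Fin 3 → ℕ} (a : Fin 3 → ℤ) (f : ∀ k : Fin 3, Fin (n k) → ℤ[X])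
    (k : Fin 3) : ℤ[X] := C (a k) * ∏ i, f k i

/-- `D = c ∏ g_i` -/
noncomputable def D {m : ℕ} (c : ℤ) (g : Fin m → ℤ[X]) : ℤ[X] := C c * ∏ i, g i

/-- `v` is a square modulo `f`, over the rationals -/
def SqMod (f v : ℤ[X]) : Prop := ∃ q : ℚ[X], f.map (Int.castRingHom ℚ) ∣
  (q ^ 2 - v.map (Int.castRingHom ℚ))

/-- modulo a factor `f` of `u_k`, the curve `y² = x (x - D u₀) (x - D u₁)` has a node whose tangent
directions are the square roots of `v_k`; so the reduction at `f` is split if and only if `v_k` is a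
square modulo `f` -/
noncomputable def v {n : Fin 3 → ℕ} (D : ℤ[X]) (a : Fin 3 → ℤ)
    (f : ∀ k : Fin 3, Fin (n k) → ℤ[X]) : Fin 3 → ℤ[X] :=
  ![-(D * u a f 1), -(D * u a f 0), D * u a f 0]

open Classical in
/-- the number of the factors of `u_k` with split multiplicative reduction -/
noncomputable def s {n : Fin 3 → ℕ} (D : ℤ[X]) (a : Fin 3 → ℤ)
    (f : ∀ k : Fin 3, Fin (n k) → ℤ[X]) (k : Fin 3) : ℕ :=
  (univ.filter (fun i => SqMod (f k i) (v D a f k))).card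

open Classical in
/-- the number of the factors of `D` modulo which `u₀ u₁` is not a square -/
noncomputable def w {n : Fin 3 → ℕ} {m : ℕ} (a : Fin 3 → ℤ)
    (f : ∀ k : Fin 3, Fin (n k) → ℤ[X]) (g : Fin m → ℤ[X]) : ℕ :=
  (univ.filter (fun i => ¬ SqMod (g i) (u a f 0 * u a f 1))).card

/-- the constant `κ = n₀ + n₁ - (n₂ + s₂) / 2 + w / 2` -/
noncomputable def κ {n : Fin 3 → ℕ} {m : ℕ} (a : Fin 3 → ℤ) (f : ∀ k : Fin 3, Fin (n k) → ℤ[X])
    (c : ℤ) (g : Fin m → ℤ[X]) : ℝ :=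
  (n 0 : ℝ) + n 1 - ((n 2 : ℝ) + s (D c g) a f 2) / 2 + (w a f g : ℝ) / 2

/-- The pair `(A, B)` is good: `E A B` is an elliptic curve of rank at most `R` and the order of
`Ш(E A B)[2 ^ j]` is at most `2 ^ (R j)` for all `j`; the isogenous curve `Q A B` has rank at
most `R`, the order of `Ш(Q A B)[2]` is `2 ^ k` with `|k - κ l| ≤ δ l`, and the order
of `Ш(Q A B)[2 ^ j]` is at most `2 ^ (k + R j)` for all `j`. -/
def Good (R : ℕ) (κ δ l : ℝ) (A B : ℤ) : Prop :=
  A ≠ 0 ∧ B ≠ 0 ∧ A ≠ B ∧ rk (E A B) ≤ R ∧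
    (∀ j : ℕ, Finite (ShaTor (E A B) (2 ^ j)) ∧
      Nat.card (ShaTor (E A B) (2 ^ j)) ≤ 2 ^ (R * j)) ∧
    rk (Q A B) ≤ R ∧
      ∃ k : ℕ, |(k : ℝ) - κ * l| ≤ δ * l ∧ Nat.card (ShaTor (Q A B) 2) = 2 ^ k ∧
        ∀ j : ℕ, Finite (ShaTor (Q A B) (2 ^ j)) ∧
          Nat.card (ShaTor (Q A B) (2 ^ j)) ≤ 2 ^ (k + R * j)

open Classical in
/-- **Theorem.** Let `u_k = a_k ∏_{i < n_k} f_{k,i}`, `k = 0, 1, 2`, and `D = c ∏_{i < m} g_i` be
polynomials with integer coefficients with `u₀ - u₁ = u₂`, where `a_k ≠ 0`, `c ≠ 0` and the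
`n₀ + n₁ + n₂ + m` polynomials `f_{k,i}`, `g_i` are irreducible of positive degree and pairwise
non-associated, and let `s_k` be the number of the `i` such that `y² = x (x - D u₀) (x - D u₁)` has
split multiplicative reduction at `f_{k,i}`. Assume that `2 n_k + s_k ≤ n₀ + n₁ + n₂` for
`k = 0, 1, 2`. Let `κ = n₀ + n₁ - (n₂ + s₂) / 2 + w / 2`, `w` the number of the `g_i` modulo which
`u₀ u₁` is not a square; then `κ ≥ (n₀ + n₁) / 2`. For all `δ, ε > 0` and `L` there is `R` such that for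
all sufficiently large `M` and all `N` with `|N| ≤ M ^ L` all but at most `ε M` of the integers `t` with
`N < t ≤ N + M` are good: the curve `E_t : y² = x (x - D(t) u₀(t)) (x - D(t) u₁(t))` has
`#Ш(E_t)[2 ^ j] ≤ 2 ^ (R j)` for all `j` and rank at most `R`, and for the isogenous curve
`E_t / ⟨(0, 0)⟩` the order of `Ш[2]` is `2 ^ k` with `|k - κ log log M| ≤ δ log log M` and the order
of `Ш[2 ^ j]` at most `2 ^ (k + R j)`. -/
theorem result (n : Fin 3 → ℕ) (m : ℕ) (a : Fin 3 → ℤ) (f : ∀ k : Fin 3, Fin (n k) → ℤ[X])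
    (c : ℤ) (g : Fin m → ℤ[X]) (ha : ∀ k, a k ≠ 0) (hc : c ≠ 0)
    (hf : ∀ k i, Irreducible (f k i) ∧ 0 < (f k i).natDegree)
    (hf' : ∀ k i l j, (⟨k, i⟩ : Σ k : Fin 3, Fin (n k)) ≠ ⟨l, j⟩ → ¬ Associated (f k i) (f l j))
    (hg : ∀ i, Irreducible (g i) ∧ 0 < (g i).natDegree)
    (hg' : ∀ i j, i ≠ j → ¬ Associated (g i) (g j)) (hfg : ∀ k i j, ¬ Associated (f k i) (g j))
    (hu : u a f 0 - u a f 1 = u a f 2)
    (hs : ∀ k, 2 * n k + s (D c g) a f k ≤ n 0 + n 1 + n 2) :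
    ((n 0 : ℝ) + n 1) / 2 ≤ κ a f c g ∧
    ∀ (δ ε : ℝ) (L : ℕ), 0 < δ → 0 < ε → ∃ R M₀ : ℕ, ∀ (N : ℤ) (M : ℕ), M₀ ≤ M →
      |N| ≤ (M : ℤ) ^ L →
      (((Ioc N (N + (M : ℤ))).filter (fun t => ¬ Good R (κ a f c g) δ (Real.log (Real.log M))
        ((D c g * u a f 0).eval t) ((D c g * u a f 1).eval t))).card : ℝ) ≤ ε * M := by
  have hirr : Pool.Agent.TH841.PT.Irr (Pool.Agent.TH841.TR.allf g f) := by
    refine ⟨?_, ?_, ?_⟩
    · rintro (x | i)
      · exact (hf x.1 x.2).1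
      · exact (hg i).1
    · rintro (x | i)
      · exact (hf x.1 x.2).2
      · exact (hg i).2
    · rintro (x | i) (y | j) hxy
      · exact hf' x.1 x.2 y.1 y.2 fun h => hxy (congrArg Sum.inl h)
      · exact hfg x.1 x.2 j
      · exact fun h => hfg y.1 y.2 i h.symm
      · exact hg' i j fun h => hxy (congrArg Sum.inr h)
  have hB : Pool.Agent.TH841.TR.Bal (Pool.Agent.TH841.LS.DG c g) a f :=
    Pool.Agent.TH841.TR.bal_of (v := v (D c g) a f) rfl rfl rfl hs
  have hκ : κ a f c g = Pool.Agent.TH841.LS.sc a f c g := rfl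
  refine ⟨?_, fun δ ε L hδ hε => ?_⟩
  · have h1 := hs 2
    have h2 : (2 * n 2 + s (D c g) a f 2 : ℝ) ≤ n 0 + n 1 + n 2 := by exact_mod_cast h1
    have h3 : (0 : ℝ) ≤ (w a f g : ℝ) := Nat.cast_nonneg _
    unfold κ
    linarith
  · rw [hκ]
    exact Pool.Agent.V11288.NO.pen a f c g ha hc hirr hu (Or.inr hB) δ ε L hδ hε

end Pool.Agent.Results.MP_e23604_nt.NormalOrderPencils
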