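import Pool.Agent.Results.MP_e23604_nt.NormalOrderPencils
import Pool.Agent.V11109.TWI.Basic
import Pool.Agent.Y854.GM.Sets

/-!
# Tate-Shafarevich groups in one-parameter families at the terms of sparse sequences

`E_t : y² = x (x - D(t) u₀(t)) (x - D(t) u₁(t))` is a one-parameter family as in the hand-in
`NormalOrderPencils`: `u₀`, `u₁`, `u₂ = u₀ - u₁` and `D` are constants times products of pairwise
different irreducible polynomials, and `2 n_k + s_k ≤ n₀ + n₁ + n₂`, where `n_k` is the number of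
factors of `u_k` and `s_k` the number of those with split multiplicative reduction.

Let `p > 1` be a real number.  There is a set `A₀` of real numbers of Hausdorff dimension smaller than
one such that for all `α > 0` outside `A₀` and for all these families: for almost all `j` (natural
density) the integer `t = ⌊α j ^ p⌋` is good: the rank of `E_t` and the 2-rank of `Ш(E_t)` are bounded,
and the 2-rank of the Tate-Shafarevich group of the isogenous curve `E_t / ⟨(0, 0)⟩` is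
`(κ + o(1)) log log t`.
-/

set_option autoImplicit false

namespace Pool.Agent.Results.MP_e23604_nt.SparseNormalOrder

open Finset Polynomial Filter
open Pool.Agent.V11109.TWI (countable_poly)
open Pool.Agent.Results.MP_e23604_nt.NormalOrderPencils

/-- change of the scale -/
lemma Good.scale {R : ℕ} {κ₀ δ δ' l l' : ℝ} {A B : ℤ} (h : Good R κ₀ δ l A B)
    (hl : |κ₀| * |l - l'| + δ * l ≤ δ' * l') : Good R κ₀ δ' l' A B := by
  obtain ⟨h1, h2, h3, h4, h5, h6, k, h7, h8, h9⟩ := h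
  refine ⟨h1, h2, h3, h4, h5, h6, k, ?_, h8, h9⟩
  have e : (k : ℝ) - κ₀ * l' = ((k : ℝ) - κ₀ * l) + κ₀ * (l - l') := by ring
  rw [e]
  calc |((k : ℝ) - κ₀ * l) + κ₀ * (l - l')| ≤ |(k : ℝ) - κ₀ * l| + |κ₀ * (l - l')| := abs_add_le _ _
    _ ≤ δ * l + |κ₀| * |l - l'| := by
        rw [abs_mul]
        linarith
    _ ≤ δ' * l' := by linarith

/-- comparison of `log log M` and `log log t` -/
lemma scale_logs (κ₀ δ ε : ℝ) (hδ : 0 < δ) (hε : 0 < ε) : ∃ M₁ : ℕ, ∀ M t : ℕ, M₁ ≤ M → t ≤ M →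
    ε * M < t → |κ₀| * |Real.log (Real.log (M : ℝ)) - Real.log (Real.log (t : ℝ))| +
      δ / 2 * Real.log (Real.log (M : ℝ)) ≤ δ * Real.log (Real.log (t : ℝ)) := by
  have h1 : Tendsto (fun M : ℕ => Real.log (M : ℝ)) atTop atTop :=
    Real.tendsto_log_atTop.comp tendsto_natCast_atTop_atTop
  have h2 : Tendsto (fun M : ℕ => Real.log (Real.log (M : ℝ))) atTop atTop :=
    Real.tendsto_log_atTop.comp h1
  obtain ⟨M₁, hM₁⟩ := eventually_atTop.1 ((h1.eventually (eventually_ge_atTop (max 4 (2 * -Real.log ε)))).and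
    (h2.eventually (eventually_ge_atTop (2 * (|κ₀| + δ) / δ))))
  refine ⟨max M₁ 1, fun M t hM htM hεt => ?_⟩
  obtain ⟨h3, h4⟩ := hM₁ M ((le_max_left _ _).trans hM)
  have hM0 : (0 : ℝ) < M := by
    have : 1 ≤ M := (le_max_right _ _).trans hM
    exact_mod_cast this
  have ht0 : (0 : ℝ) < t := lt_trans (by positivity) hεt
  have h5 : Real.log ε + Real.log M ≤ Real.log t := by
    rw [← Real.log_mul hε.ne' hM0.ne']
    exact Real.log_le_log (by positivity) hεt.le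
  have h6 : (4 : ℝ) ≤ Real.log M := (le_max_left _ _).trans h3
  have h7 : 2 * -Real.log ε ≤ Real.log M := (le_max_right _ _).trans h3
  have h8 : Real.log M / 2 ≤ Real.log t := by linarith
  have h9 : Real.log t ≤ Real.log M := Real.log_le_log ht0 (by exact_mod_cast htM)
  have h10 : Real.log (Real.log t) ≤ Real.log (Real.log M) := Real.log_le_log (by linarith) h9
  have h11 : Real.log (Real.log M) - 1 ≤ Real.log (Real.log t) := by
    have h12 : Real.log (Real.log M / 2) ≤ Real.log (Real.log t) := Real.log_le_log (by linarith) h8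
    rw [Real.log_div (by linarith) (by norm_num)] at h12
    have := Real.log_two_lt_d9
    linarith
  rw [abs_of_nonneg (show 0 ≤ Real.log (Real.log (M : ℝ)) - Real.log (Real.log (t : ℝ)) by linarith)]
  have h13 : |κ₀| * (Real.log (Real.log M) - Real.log (Real.log t)) ≤ |κ₀| * 1 :=
    mul_le_mul_of_nonneg_left (by linarith) (abs_nonneg _)
  rw [div_le_iff₀ hδ] at h4
  have h14 := mul_le_mul_of_nonneg_left h11 hδ.le
  linarith

/-- the hypotheses on the family -/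
def Family (n : Fin 3 → ℕ) (m : ℕ) (a : Fin 3 → ℤ) (f : ∀ k : Fin 3, Fin (n k) → ℤ[X])
    (c : ℤ) (g : Fin m → ℤ[X]) : Prop :=
  (∀ k, a k ≠ 0) ∧ c ≠ 0 ∧ (∀ k i, Irreducible (f k i) ∧ 0 < (f k i).natDegree) ∧
  (∀ k i l j, (⟨k, i⟩ : Σ k : Fin 3, Fin (n k)) ≠ ⟨l, j⟩ → ¬ Associated (f k i) (f l j)) ∧
  (∀ i, Irreducible (g i) ∧ 0 < (g i).natDegree) ∧
  (∀ i j, i ≠ j → ¬ Associated (g i) (g j)) ∧ (∀ k i j, ¬ Associated (f k i) (g j)) ∧
  u a f 0 - u a f 1 = u a f 2 ∧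
  ∀ k, 2 * n k + s (D c g) a f k ≤ n 0 + n 1 + n 2

/-- the integer `t` is good -/
def GoodAt {n : Fin 3 → ℕ} {m : ℕ} (a : Fin 3 → ℤ) (f : ∀ k : Fin 3, Fin (n k) → ℤ[X])
    (c : ℤ) (g : Fin m → ℤ[X]) (R : ℕ) (δ : ℝ) (t : ℕ) : Prop :=
  Good R (κ a f c g) δ (Real.log (Real.log (t : ℝ))) ((D c g * u a f 0).eval (t : ℤ))
    ((D c g * u a f 1).eval (t : ℤ))

open Classical in
/-- almost all integers are good -/
lemma density {n : Fin 3 → ℕ} {m : ℕ} {a : Fin 3 → ℤ} {f : ∀ k : Fin 3, Fin (n k) → ℤ[X]}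
    {c : ℤ} {g : Fin m → ℤ[X]} (hfam : Family n m a f c g) (δ ε : ℝ) (hδ : 0 < δ) (hε : 0 < ε) :
    ∃ R X₀ : ℕ, ∀ X : ℕ, X₀ ≤ X →
      (((Ioc 0 X).filter (fun t : ℕ => ¬ GoodAt a f c g R δ t)).card : ℝ) ≤ ε * X := by
  obtain ⟨ha, hc, hf, hf', hg, hg', hfg, hu, hs⟩ := hfam
  obtain ⟨R, M₀, hM₀⟩ := (NormalOrderPencils.result n m a f c g ha hc hf hf' hg hg' hfg hu hs).2
    (δ / 2) (ε / 2) 0 (by positivity) (by positivity)
  obtain ⟨M₁, hM₁⟩ := scale_logs (κ a f c g) δ (ε / 2) hδ (by positivity)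
  refine ⟨R, max M₀ M₁, fun X hX => ?_⟩
  have h1 := hM₀ 0 X ((le_max_left _ _).trans hX) (by simp)
  set S : Finset ℤ := (Ioc (0 : ℤ) (0 + (X : ℤ))).filter (fun t => ¬ Good R (κ a f c g) (δ / 2)
    (Real.log (Real.log X)) ((D c g * u a f 0).eval t) ((D c g * u a f 1).eval t)) with hS
  have hsub : ((Ioc 0 X).filter (fun t : ℕ => ¬ GoodAt a f c g R δ t)).image (fun t : ℕ => (t : ℤ)) ⊆
      S ∪ (Ioc 0 ⌊ε / 2 * X⌋₊).image (fun t : ℕ => (t : ℤ)) := by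
    intro z hz
    rw [Finset.mem_image] at hz
    obtain ⟨t, ht, rfl⟩ := hz
    rw [Finset.mem_filter, Finset.mem_Ioc] at ht
    obtain ⟨⟨ht0, htX⟩, hbad⟩ := ht
    rw [Finset.mem_union]
    rcases le_or_gt ((t : ℕ) : ℝ) (ε / 2 * X) with h | h
    · right
      rw [Finset.mem_image]
      exact ⟨t, Finset.mem_Ioc.2 ⟨ht0, Nat.le_floor h⟩, rfl⟩
    · left
      rw [hS, Finset.mem_filter, Finset.mem_Ioc]
      refine ⟨⟨by exact_mod_cast ht0, by simpa using (by exact_mod_cast htX : (t : ℤ) ≤ X)⟩, fun hgood => ?_⟩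
      exact hbad (Good.scale hgood (hM₁ X t ((le_max_right _ _).trans hX) htX h))
  have h2 := (Finset.card_le_card hsub).trans (Finset.card_union_le _ _)
  rw [Finset.card_image_of_injective _ Nat.cast_injective,
    Finset.card_image_of_injective _ Nat.cast_injective, Nat.card_Ioc, Nat.sub_zero] at h2
  have h3 : (⌊ε / 2 * (X : ℝ)⌋₊ : ℝ) ≤ ε / 2 * X := Nat.floor_le (by positivity)
  have h4 : (((Ioc 0 X).filter (fun t : ℕ => ¬ GoodAt a f c g R δ t)).card : ℝ) ≤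
      (S.card : ℝ) + (⌊ε / 2 * (X : ℝ)⌋₊ : ℝ) := by exact_mod_cast h2
  linarith

open Classical in
/-- **Main result.** -/
theorem result (p : ℝ) (hp : 1 < p) :
    ∃ A₀ : Set ℝ, dimH A₀ < 1 ∧ ∀ (n : Fin 3 → ℕ) (m : ℕ) (a : Fin 3 → ℤ)
      (f : ∀ k : Fin 3, Fin (n k) → ℤ[X]) (c : ℤ) (g : Fin m → ℤ[X]), Family n m a f c g →
      ∀ δ ε : ℝ, 0 < δ → 0 < ε → ∃ R : ℕ, ∀ α : ℝ, 0 < α → α ∉ A₀ → ∃ N₀ : ℕ, ∀ N : ℕ, N₀ ≤ N →
        (((Icc 1 N).filter (fun j : ℕ => ¬ GoodAt a f c g R δ ⌊α * (j : ℝ) ^ p⌋₊)).card : ℝ) ≤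
          ε * N := by
  have hcp := countable_poly
  obtain ⟨A₀, hA₀, hmain⟩ := Pool.Agent.Y854.GM.sets p hp
    (fun v : (Σ n : Fin 3 → ℕ, Σ m : ℕ, (Fin 3 → ℤ) × (∀ k : Fin 3, Fin (n k) → ℤ[X]) × ℤ ×
      (Fin m → ℤ[X]) × ℕ × ℚ) =>
      {t : ℕ | ¬ GoodAt v.2.2.1 v.2.2.2.1 v.2.2.2.2.1 v.2.2.2.2.2.1 v.2.2.2.2.2.2.1
        (v.2.2.2.2.2.2.2 : ℝ) t})
  refine ⟨A₀, hA₀, fun n m a f c g hfam δ ε hδ hε => ?_⟩
  obtain ⟨q, hq0, hqδ⟩ := exists_rat_btwn hδ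
  obtain ⟨R, X₀, hX₀⟩ := density hfam (q : ℝ) (ε / 4) hq0 (by positivity)
  refine ⟨R, fun α hα hαA => ?_⟩
  obtain ⟨N₁, hN₁⟩ := (hmain α hα hαA ⟨n, m, a, f, c, g, R, q⟩ (ε / 4) (ε / 4) (by positivity)).1
    ⟨X₀, fun X hX => by
      refine le_trans (le_of_eq ?_) (hX₀ X hX)
      congr 2
      ext t
      simp only [Finset.mem_filter, Set.mem_ofPred_eq]⟩
  have htend : Tendsto (fun j : ℕ => α * (j : ℝ) ^ p) atTop atTop :=
    Tendsto.const_mul_atTop hα ((tendsto_rpow_atTop (by linarith)).comp tendsto_natCast_atTop_atTop)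
  obtain ⟨j₀, hj₀⟩ := eventually_atTop.1 (htend.eventually (eventually_ge_atTop (3 : ℝ)))
  obtain ⟨N₂, hN₂⟩ := exists_nat_gt (2 * (j₀ : ℝ) / ε)
  refine ⟨max N₁ N₂, fun N hN => ?_⟩
  have h1 := hN₁ N ((le_max_left _ _).trans hN)
  have hsub : (Icc 1 N).filter (fun j : ℕ => ¬ GoodAt a f c g R δ ⌊α * (j : ℝ) ^ p⌋₊) ⊆
      (Icc 1 N).filter (fun j : ℕ => ¬ GoodAt a f c g R (q : ℝ) ⌊α * (j : ℝ) ^ p⌋₊) ∪
        Finset.range j₀ := by
    intro j hj
    rw [Finset.mem_filter] at hj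
    rw [Finset.mem_union, Finset.mem_filter, Finset.mem_range]
    rcases lt_or_ge j j₀ with h | h
    · exact Or.inr h
    · refine Or.inl ⟨hj.1, fun hgood => hj.2 (Good.scale hgood ?_)⟩
      have h3 : (3 : ℝ) ≤ ((⌊α * (j : ℝ) ^ p⌋₊ : ℕ) : ℝ) := by
        have : 3 ≤ ⌊α * (j : ℝ) ^ p⌋₊ := Nat.le_floor (by exact_mod_cast hj₀ j h)
        exact_mod_cast this
      have h4 : (1 : ℝ) ≤ Real.log ((⌊α * (j : ℝ) ^ p⌋₊ : ℕ) : ℝ) := by
        rw [Real.le_log_iff_exp_le (by linarith)]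
        have := Real.exp_one_lt_d9
        linarith
      have h5 : 0 ≤ Real.log (Real.log ((⌊α * (j : ℝ) ^ p⌋₊ : ℕ) : ℝ)) := Real.log_nonneg h4
      rw [sub_self, abs_zero, mul_zero, zero_add]
      exact mul_le_mul_of_nonneg_right hqδ.le h5
  have h2 := (Finset.card_le_card hsub).trans (Finset.card_union_le _ _)
  rw [Finset.card_range] at h2
  have h3 : (((Icc 1 N).filter (fun j : ℕ => ¬ GoodAt a f c g R δ ⌊α * (j : ℝ) ^ p⌋₊)).card : ℝ) ≤
      (((Icc 1 N).filter (fun j : ℕ => ¬ GoodAt a f c g R (q : ℝ) ⌊α * (j : ℝ) ^ p⌋₊)).card : ℝ) + j₀ := by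
    exact_mod_cast h2
  have h4 : (j₀ : ℝ) ≤ ε / 2 * N := by
    have h5 : (N₂ : ℝ) ≤ N := by exact_mod_cast (le_max_right _ _).trans hN
    have h6 : 2 * (j₀ : ℝ) / ε < N := by linarith
    rw [div_lt_iff₀ hε] at h6
    linarith
  have h5 : (((Icc 1 N).filter (fun j : ℕ => ¬ GoodAt a f c g R (q : ℝ) ⌊α * (j : ℝ) ^ p⌋₊)).card : ℝ) ≤
      (ε / 4 + ε / 4) * N := by
    refine le_trans (le_of_eq ?_) h1
    congr 2
    ext t
    simp only [Finset.mem_filter, Set.mem_ofPred_eq]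
  calc _ ≤ _ := h3
    _ ≤ (ε / 4 + ε / 4) * N + ε / 2 * N := add_le_add h5 h4
    _ = ε * N := by ring

end Pool.Agent.Results.MP_e23604_nt.SparseNormalOrder
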